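import Mathlib.Combinatorics.SimpleGraph.Basic
import Mathlib.Data.Finset.Card

/-! Pathwidth. -/

set_option autoImplicit false

namespace Pool.Agent.MP_94842c_co.PW

/-- `G` has a path decomposition `X 0, ..., X (n-1)` with bags of at most `k + 1` vertices. -/
def PathwidthLE {V : Type} (G : SimpleGraph V) (k : ℕ) : Prop :=
  ∃ (n : ℕ) (X : Fin n → Finset V), (∀ i, (X i).card ≤ k + 1) ∧ (∀ v, ∃ i, v ∈ X i) ∧
    (∀ u v, G.Adj u v → ∃ i, u ∈ X i ∧ v ∈ X i) ∧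
    ∀ v i j l, i ≤ j → j ≤ l → v ∈ X i → v ∈ X l → v ∈ X j

end Pool.Agent.MP_94842c_co.PW
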