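import Pool.Agent.MP_94842c_co.h78.Lower

/-! The tables describe the transitions. -/

set_option autoImplicit false
set_option maxRecDepth 100000

namespace Pool.Agent.MP_94842c_co.PW

/-- a state from its code -/
def dec (k n : ℕ) : St k :=
  (fun a => n / 4 ^ a.val % 4, fun a b => n.testBit (2 * k + k * a.val + b.val))

/-- the listed states -/
def SS (r : ℕ) : St 4 := dec 4 (limb C4 24 16777216 r)

/-- the extended states -/
def EE (z r : ℕ) : St 5 := dec 5 (limb EX 36 68719476736 (28 * z + r))

/-- a set of slots from its code -/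
def mask (n : ℕ) : Fin 4 → Bool := fun a => n.testBit a.val

/-- index of the successor -/
def fT (z r n : ℕ) : ℕ := limb TRN 5 32 (16 * (28 * z + r) + n)

/-- a permutation from its number -/
def fV (p : ℕ) : Fin 4 → Fin 4 :=
  fun a => ⟨limb PVN 8 256 p / 4 ^ a.val % 4, Nat.mod_lt _ (by decide)⟩

/-- equality test -/
def eqS {k : ℕ} (s t : St k) : Bool :=
  decide (∀ a, s.1 a = t.1 a) && decide (∀ a b, s.2 a b = t.2 a b)

theorem eqS_iff {k : ℕ} {s t : St k} : eqS s t = true ↔ s = t := by
  simp [eqS, Prod.ext_iff, funext_iff]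

theorem t_zero : SS 27 = zero 4 := by decide +kernel

theorem t_inj : ∀ r < 28, ∀ r' < 27, eqS (SS r') (SS r) = true → r' = r := by decide +kernel

theorem t_ext : ∀ z : Fin 5, ∀ r < 28, eqS (ext z (SS r)) (EE z r) = true := by decide +kernel

theorem t_del : ∀ z < 5, ∀ r < 28, ∀ n < 16,
    if ok (EE z r) (mask n) = true then
      eqS (del (EE z r) (mask n)) (SS (fT z r n)) = true ∧ fT z r n < 28
    else fT z r n = 28 := by decide +kernel

theorem t_perm : ∀ p < 24, Function.Injective (fV p) ∧
    ∀ r < 27, eqS (comp (SS r) (fV p)) (SS (fP p r)) = true ∧ fP p r < 27 := by decide +kernel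

theorem t_mask : Function.Bijective fun n : Fin 16 => mask n := by decide +kernel

theorem t_cnt : ∀ z < 5, ∀ s < 16, cnt (mask s) = pc (16 * z + s) := by decide +kernel

theorem t_tb : TBL.length = 80 ∧ ∀ z < 5, ∀ s < 16, (TBL.getD (16 * z + s) []).length = 27 ∧
    ∀ r < 27, (TBL.getD (16 * z + s) []).getD r [] = (((List.range 16).filter
      fun n => sub (mask n) (mask s)).map (fT z r)).filter (· < 27) := by decide +kernel

theorem t_val : ∀ j < 148, ∀ i < 27, fL j i ≤ fA j i * 1000000 + fB j i * 1414213 ∧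
    fA j i * 1000000 + fB j i * 1414214 ≤ fH j i := by decide +kernel

theorem t_top : ∀ i < 27, fA 147 i = 1 := by decide +kernel

end Pool.Agent.MP_94842c_co.PW
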