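import Mathlib.Data.List.GetD
import Pool.Agent.MP_94842c_co.pw.Link
import Pool.Agent.MP_94842c_co.pw.C0
import Pool.Agent.MP_94842c_co.pw.C1
import Pool.Agent.MP_94842c_co.pw.C2
import Pool.Agent.MP_94842c_co.pw.C3

/-! The invariant family for four slots. -/

set_option autoImplicit false

noncomputable section

namespace Pool.Agent.MP_94842c_co.PW

open Classical

/-- the growth rate -/
def kap : ℝ := (2 + 2 * √2) ^ (1 / 5 : ℝ)

theorem s_lo : (1414213 : ℝ) ≤ 1000000 * √2 := by
  have : (1414213 / 1000000 : ℝ) ≤ √2 := Real.le_sqrt_of_sq_le (by norm_num)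
  linarith

theorem s_hi : 1000000 * √2 ≤ (1414214 : ℝ) := by
  have : √2 ≤ (1414214 / 1000000 : ℝ) := Real.sqrt_le_iff.2 (by norm_num)
  linarith

theorem kap_pos : 0 < kap := by
  unfold kap
  positivity

theorem kap5 : kap ^ 5 = 2 + 2 * √2 := by
  rw [kap, one_div]
  exact_mod_cast Real.rpow_inv_natCast_pow (by positivity) (n := 5) (by norm_num)

theorem kap_lo : (1370127982 : ℝ) ≤ 1000000000 * kap := by
  have : (141421356237 / 100000000000 : ℝ) ≤ √2 := Real.le_sqrt_of_sq_le (by norm_num)
  refine le_of_pow_le_pow_left₀ (n := 5) (by norm_num) (by have := kap_pos; positivity) ?_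
  rw [mul_pow, kap5]
  linarith

theorem kap_hi : 1000000000 * kap ≤ (1370127983 : ℝ) := by
  have : √2 ≤ (141421356238 / 100000000000 : ℝ) := Real.sqrt_le_iff.2 (by norm_num)
  refine le_of_pow_le_pow_left₀ (n := 5) (by norm_num) (by norm_num) ?_
  rw [mul_pow, kap5]
  linarith

theorem kap1 : 1 < kap := by linarith [kap_lo]

theorem le_kH {r : ℕ} (h : r ≤ 50) : kap ^ r * 1000000000 ^ 50 ≤ kH r := by
  obtain ⟨d, hd⟩ := Nat.exists_eq_add_of_le h
  have e : kH r = 1370127983 ^ r * 1000000000 ^ d := by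
    show 1370127983 ^ r * 1000000000 ^ (50 - r) = _
    rw [show 50 - r = d by omega]
  rw [e, hd, pow_add, ← mul_assoc, ← mul_pow, mul_comm kap]
  push_cast
  exact mul_le_mul_of_nonneg_right
    (pow_le_pow_left₀ (by have := kap_pos; positivity) kap_hi _) (by positivity)

theorem kL_le {r : ℕ} (h : r ≤ 50) : (kL r : ℝ) ≤ kap ^ r * 1000000000 ^ 50 := by
  obtain ⟨d, hd⟩ := Nat.exists_eq_add_of_le h
  have e : kL r = 1370127982 ^ r * 1000000000 ^ d := by
    show 1370127982 ^ r * 1000000000 ^ (50 - r) = _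
    rw [show 50 - r = d by omega]
  rw [e, hd, pow_add, ← mul_assoc, ← mul_pow, mul_comm kap]
  push_cast
  exact mul_le_mul_of_nonneg_right (pow_le_pow_left₀ (by norm_num) kap_lo _) (by positivity)

theorem sumL_eq (f : ℕ → ℕ) (l : List ℕ) : (sumL f l : ℝ) = (l.map fun x => (f x : ℝ)).sum := by
  induction l with
  | nil => simp [sumL]
  | cons x l ih => simp [sumL, ← ih]

theorem allR_get {α : Type} {f : ℕ → α → Bool} (d : α) (L : List α) : ∀ r, allR f r L = true →
    ∀ i < L.length, f (r + i) (L.getD i d) = true := by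
  induction L with
  | nil => simp
  | cons x l ih =>
    intro r h i hi
    rw [allR, Bool.and_eq_true] at h
    cases i with
    | zero => exact h.1
    | succ i => simpa [Nat.add_assoc, Nat.add_comm 1 i] using ih _ h.2 i (by simpa using hi)

/-- values of the functionals -/
def gv (j i : ℕ) : ℝ := fA j i + fB j i * √2

theorem gv0 (j i : ℕ) : 0 ≤ gv j i := by
  unfold gv
  positivity

theorem le2_le {a b a' b' : ℕ} (h : le2 a b a' b' = true) : (a : ℝ) + b * √2 ≤ a' + b' * √2 := by
  simp only [le2, Bool.or_eq_true, Bool.and_eq_true, Nat.ble_eq] at h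
  rcases h with ⟨h1, h2⟩ | h
  · exact add_le_add (Nat.cast_le.2 h1)
      (mul_le_mul_of_nonneg_right (Nat.cast_le.2 h2) (Real.sqrt_nonneg _))
  · have h1 : (a : ℝ) * 1000000 + b * 1414214 ≤ a' * 1000000 + b' * 1414213 := by
      exact_mod_cast h
    have h2 := mul_le_mul_of_nonneg_left s_lo (Nat.cast_nonneg (α := ℝ) b')
    have h3 := mul_le_mul_of_nonneg_left s_hi (Nat.cast_nonneg (α := ℝ) b)
    linarith

theorem sum_gv (j : ℕ) (x : List ℕ) :
    (x.map (gv j)).sum = sumL (fA j) x + sumL (fB j) x * √2 := by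
  induction x with
  | nil => simp [sumL]
  | cons a x ih =>
    simp only [List.map_cons, List.sum_cons, ih, sumL, gv, Nat.add_eq]
    push_cast
    ring

theorem fR_lt (j : ℕ) : fR j < 32 := Nat.mod_lt _ (by decide)

theorem tk_lt (t : ℕ) : tk t < 148 := Nat.mod_lt _ (by decide)

theorem tp_lt (t : ℕ) : tp t < 24 := Nat.mod_lt _ (by decide)

/-- the meaning of a check -/
def Dom (j c : ℕ) (tb : List (List ℕ)) : Prop :=
  ∃ L : List (ℝ × ℕ), (∀ t ∈ L, 0 ≤ t.1) ∧
    (L.map fun t => t.1 * kap ^ fR (tk t.2)).sum ≤ kap ^ c * kap ^ fR j ∧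
    ∀ r < 27, ((tb.getD r []).map (gv j)).sum ≤
      (L.map fun t => t.1 * gv (tk t.2) (fP (tp t.2) r)).sum

theorem domT {j c t : ℕ} {tb : List (List ℕ)} (hl : tb.length = 27) (h : chkT j c tb t = true) :
    Dom j c tb := by
  simp only [chkT, Bool.or_eq_true, Bool.and_eq_true, Nat.beq_eq] at h
  rcases h with ⟨h1, h2⟩ | ⟨h1, h2⟩
  · refine ⟨[(1, t)], by simp, by simp [h1, pow_add, mul_comm], fun r hr => ?_⟩
    have := le2_le (allR_get [] tb 0 h2 r (by omega))
    rw [zero_add] at this
    simpa [sum_gv, gv] using this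
  · refine ⟨[(kap ^ 5, t)], by simpa using (pow_pos kap_pos 5).le, ?_, fun r hr => ?_⟩
    · simp only [List.map_cons, List.map_nil, List.sum_cons, List.sum_nil, add_zero, ← pow_add]
      rw [add_comm 5, h1, add_comm]
    · have := le2_le (allR_get [] tb 0 h2 r (by omega))
      rw [zero_add] at this
      have e : √2 * √2 = 2 := Real.mul_self_sqrt zero_le_two
      simp only [List.map_cons, List.map_nil, List.sum_cons, List.sum_nil, add_zero, sum_gv, kap5]
      refine this.trans_eq ?_
      unfold gv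
      push_cast
      linear_combination (-2 * (fB (tk t) (fP (tp t) r) : ℝ)) * e

theorem domN {j c : ℕ} {T : List ℕ} {tb : List (List ℕ)} (hj : j < 148) (hc : c ≤ 4)
    (hl : tb.length = 27) (hb : ∀ r < 27, ∀ i ∈ tb.getD r [], i < 27)
    (h : chkN j c tb T = true) : Dom j c tb := by
  simp only [chkN, Bool.and_eq_true, Nat.ble_eq] at h
  obtain ⟨h1, h2⟩ := h
  refine ⟨T.map fun t => ((tn t : ℝ) / 16777216, t), ?_, ?_, fun r hr => ?_⟩
  · simp only [List.forall_mem_map]
    exact fun t _ => by positivity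
  · have a1 := (Nat.cast_le (α := ℝ)).2 h1
    have a2 := kL_le (r := fR j + c) (by have := fR_lt j; omega)
    have a3 : (T.map fun t => (tn t : ℝ) / 16777216 * kap ^ fR (tk t) *
        (16777216 * 1000000000 ^ 50)).sum ≤ _ := List.sum_le_sum (g := fun t =>
          ((Nat.mul (tn t) (kH (fR (tk t))) : ℕ) : ℝ)) fun t _ => by
      have := mul_le_mul_of_nonneg_left (le_kH (r := fR (tk t)) (by have := fR_lt (tk t); omega))
        (Nat.cast_nonneg (α := ℝ) (tn t))
      rw [Nat.mul_eq, Nat.cast_mul]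
      linarith
    rw [List.sum_map_mul_right, ← sumL_eq] at a3
    rw [Nat.mul_eq, Nat.add_eq, Nat.cast_mul, Nat.cast_ofNat] at a1
    rw [pow_add] at a2
    rw [List.map_map]
    refine le_of_mul_le_mul_right (a := 16777216 * 1000000000 ^ 50) (a3.trans ?_) (by positivity)
    linarith
  · have a0 := allR_get [] tb 0 h2 r (by omega)
    rw [zero_add] at a0
    have b0 : ∀ t, 0 ≤ (tn t : ℝ) / 16777216 * gv (tk t) (fP (tp t) r) := fun t =>
      mul_nonneg (by positivity) (gv0 _ _)
    rw [List.map_map]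
    cases e : (tb.getD r []).isEmpty with
    | true =>
      rw [List.isEmpty_iff.1 e]
      exact List.sum_nonneg (by simpa using fun t _ => b0 t)
    | false =>
      rw [e, cond_false, Nat.ble_eq] at a0
      have a1 := (Nat.cast_le (α := ℝ)).2 a0
      rw [Nat.mul_eq, Nat.cast_mul, Nat.cast_ofNat, sumL_eq, sumL_eq] at a1
      have a2 : ((tb.getD r []).map fun i => gv j i * 1000000).sum ≤ _ :=
        List.sum_le_sum (g := fun i => (fH j i : ℝ)) fun i hi => by
          have b1 := (Nat.cast_le (α := ℝ)).2 (t_val j hj i (hb r hr i hi)).2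
          have b2 := mul_le_mul_of_nonneg_left s_hi (Nat.cast_nonneg (α := ℝ) (fB j i))
          push_cast at b1
          unfold gv
          linarith
      have a3 : _ ≤ (T.map fun t => (tn t : ℝ) / 16777216 * gv (tk t) (fP (tp t) r) *
          (16777216 * 1000000)).sum := List.sum_le_sum (f := fun t =>
            ((Nat.mul (tn t) (fL (tk t) (fP (tp t) r)) : ℕ) : ℝ)) fun t _ => by
        have b1 := (Nat.cast_le (α := ℝ)).2
          (t_val _ (tk_lt t) _ ((t_perm _ (tp_lt t)).2 r hr).2).1
        have b2 := mul_le_mul_of_nonneg_left s_lo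
          (Nat.cast_nonneg (α := ℝ) (fB (tk t) (fP (tp t) r)))
        have b3 : (fL (tk t) (fP (tp t) r) : ℝ) ≤ gv (tk t) (fP (tp t) r) * 1000000 := by
          push_cast at b1
          unfold gv
          linarith
        have := mul_le_mul_of_nonneg_left b3 (Nat.cast_nonneg (α := ℝ) (tn t))
        rw [Nat.mul_eq, Nat.cast_mul]
        linarith
      rw [List.sum_map_mul_right] at a2 a3
      refine le_of_mul_le_mul_right (a := 16777216 * 1000000) (le_trans ?_ a3) (by positivity)
      linarith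

theorem dom {j z s : ℕ} (hj : j < 148) (hz : z < 5) (hs : s < 16) :
    Dom j (pc (16 * z + s)) (TBL.getD (16 * z + s) []) := by
  have : ∃ I, chkJ j I = true := by
    rcases lt_or_ge j 37 with h | h1
    · exact part0 j j.zero_le h
    rcases lt_or_ge j 74 with h | h2
    · exact part1 j h1 h
    rcases lt_or_ge j 111 with h | h3
    · exact part2 j h2 h
    · exact part3 j h3 hj
  obtain ⟨I, h⟩ := this
  rw [chkJ, Bool.and_eq_true, Nat.beq_eq] at h
  have h1 := allR_get ([], 0) _ 0 h.2 (16 * z + s) (by simp [h.1, t_tb.1]; omega)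
  have h2 : ((TBL.zip I).getD (16 * z + s) ([], 0)).1 = TBL.getD (16 * z + s) [] := by
    rw [List.getD_eq_getElem _ _ (by simp [h.1, t_tb.1]; omega),
      List.getD_eq_getElem _ _ (by rw [t_tb.1]; omega), List.getElem_zip]
  rw [zero_add, h2, chk] at h1
  obtain ⟨h3, h4⟩ := t_tb.2 z hz s hs
  rw [Bool.cond_eq_ite] at h1
  split_ifs at h1
  · exact domT h3 h1
  · refine domN hj (by unfold pc; omega) h3 (fun r hr i hi => ?_) h1
    rw [h4 r hr] at hi
    simpa using (List.mem_filter.1 hi).2

/-- the functionals on states -/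
def gg (j : ℕ) (s : St 4) : ℝ := ∑ r ∈ Finset.range 27, if SS r = s then gv j r else 0

theorem gg_SS (j : ℕ) {r : ℕ} (h : r < 28) : gg j (SS r) = if r < 27 then gv j r else 0 := by
  have := Finset.sum_ite_eq' (Finset.range 27) r (gv j)
  simp only [Finset.mem_range] at this
  rw [gg, ← this]
  refine Finset.sum_congr rfl fun i hi => if_congr ⟨fun e => ?_, fun e => e ▸ rfl⟩ rfl rfl
  exact t_inj r h i (Finset.mem_range.1 hi) (eqS_iff.2 e)

theorem push_eq (j : ℕ) {z r s : ℕ} (hz : z < 5) (hr : r < 27) (hs : s < 16) :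
    push (gg j) (EE z r) (mask s) = (((TBL.getD (16 * z + s) []).getD r []).map (gv j)).sum := by
  have a : ∀ l : List ℕ, (∀ n ∈ l, n < 16) → (l.map fun n =>
      if (sub (mask n) (mask s) && ok (EE z r) (mask n)) = true then
        gg j (del (EE z r) (mask n)) else 0).sum = (((((l.filter
      fun n => sub (mask n) (mask s)).map (fT z r)).filter (· < 27))).map (gv j)).sum := by
    intro l hl
    induction l with
    | nil => rfl
    | cons n l ih =>
      have h1 := t_del z hz r (by omega) n (hl n List.mem_cons_self)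
      rw [List.map_cons, List.sum_cons, ih fun n hn => hl n (List.mem_cons_of_mem _ hn)]
      cases e : sub (mask n) (mask s) with
      | false => simp [e]
      | true =>
        split_ifs at h1 with h2
        · rw [eqS_iff.1 h1.1, gg_SS j h1.2]
          by_cases h3 : fT z r n < 27 <;> simp [e, h2, h3]
        · simp [e, h2, h1]
  rw [(t_tb.2 z hz s hs).2 r hr, ← a _ fun n hn => List.mem_range.1 hn, push,
    ← Fintype.sum_bijective _ t_mask _ _ fun _ => rfl, ← Finset.sum_range (fun n =>
      if (sub (mask n) (mask s) && ok (EE z r) (mask n)) = true then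
        gg j (del (EE z r) (mask n)) else 0)]
  rfl

/-- the invariant family -/
def cert : Cert 4 (Fin 148) kap where
  val s := ∃ r < 28, s = SS r
  g j := gg j
  lev j := kap ^ fR j
  M := 27 * 1024
  v0 := ⟨27, by norm_num, t_zero.symm⟩
  vs := by
    rintro z _ U ⟨r, hr, rfl⟩ h
    obtain ⟨n, rfl⟩ := t_mask.2 U
    have h1 := t_del z z.2 r hr n n.2
    rw [eqS_iff.1 (t_ext z r hr)] at h ⊢
    rw [if_pos h] at h1
    exact ⟨_, h1.2, eqS_iff.1 h1.1⟩
  inv := by
    intro j z S
    obtain ⟨s, rfl⟩ := t_mask.2 S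
    obtain ⟨L, h1, h2, h3⟩ := dom j.2 z.2 s.2
    refine ⟨L.map fun t => (t.1, ⟨tk t.2, tk_lt _⟩, fV (tp t.2)), ?_, ?_, ?_⟩
    · simp only [List.forall_mem_map]
      exact fun t ht => ⟨h1 t ht, (t_perm _ (tp_lt _)).1⟩
    · rw [List.map_map, t_cnt z z.2 s s.2]
      exact h2
    · rintro _ ⟨r, hr, rfl⟩ hne
      have hr' : r < 27 := by
        by_contra hn
        exact hne ((show r = 27 by omega) ▸ t_zero)
      rw [eqS_iff.1 (t_ext z r hr), push_eq j z.2 hr' s.2, List.map_map]
      refine (h3 r hr').trans_eq (congrArg List.sum (List.map_congr_left fun t _ => ?_))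
      obtain ⟨a1, a2⟩ := (t_perm _ (tp_lt t.2)).2 r hr'
      simp only [Function.comp, eqS_iff.1 a1, gg_SS _ (a2.trans (by norm_num : 27 < 28)), if_pos a2]
  g0 j s := Finset.sum_nonneg fun r _ => by
    split_ifs
    · exact gv0 _ _
    · exact le_rfl
  gM j s := by
    refine ((Finset.sum_le_card_nsmul _ _ 1024 fun r _ => ?_).trans_eq (by simp)).trans
      (le_mul_of_one_le_right (by norm_num) (one_le_pow₀ kap1.le))
    split_ifs
    · have a1 : (fA j r : ℝ) ≤ 256 := by exact_mod_cast (Nat.mod_lt _ (by decide)).le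
      have a2 : (fB j r : ℝ) ≤ 256 := by exact_mod_cast (Nat.mod_lt _ (by decide)).le
      have a3 := mul_le_mul_of_nonneg_right a2 (Real.sqrt_nonneg 2)
      have := s_hi
      unfold gv
      linarith
    · norm_num
  gz j := by rw [← t_zero, gg_SS _ (by norm_num), if_neg (by norm_num)]
  l0 j := (pow_pos kap_pos _).le
  M0 := by norm_num
  top := 147
  one := by
    rintro _ ⟨r, hr, rfl⟩ hne
    have hr' : r < 27 := by
      by_contra hn
      exact hne ((show r = 27 by omega) ▸ t_zero)
    rw [gg_SS _ hr, if_pos hr', gv, show ((147 : Fin 148) : ℕ) = 147 from rfl, t_top r hr',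
      Nat.cast_one]
    exact le_add_of_nonneg_right (by positivity)

end Pool.Agent.MP_94842c_co.PW
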