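import Pool.Agent.MP_94842c_co.h78.Lower
import Pool.Agent.MP_94842c_co.pw.Defs

/-! The closed strip has pathwidth at most four. -/

set_option autoImplicit false

namespace Pool.Agent.MP_94842c_co.PW

open SimpleGraph Set Lim Low

theorem PathwidthLE.anti {V : Type} {G H : SimpleGraph V} {k : ℕ} (h : PathwidthLE G k)
    (e : H ≤ G) : PathwidthLE H k := by
  obtain ⟨n, X, h1, h2, h3, h4⟩ := h
  exact ⟨n, X, h1, h2, fun u v a => h3 u v (e a), h4⟩

/-- the strip up to column `b`, closed by one edge, on the columns up to `N` -/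
def clo (N k b : ℕ) : SimpleGraph (Fin (N + 1) × Bool) where
  Adj x y := (strip.Adj (x.1, x.2) (y.1, y.2) ∧ x.1.val ≤ b ∧ y.1.val ≤ b) ∨
    (x ≠ y ∧ ((x = (0, false) ∧ y.1.val = k) ∨ (y = (0, false) ∧ x.1.val = k)))
  symm := ⟨fun _ _ h => h.imp (fun h => ⟨h.1.symm, h.2.symm⟩) fun h => ⟨h.1.symm, h.2.symm⟩⟩
  loopless := ⟨fun _ h => h.elim (fun h => h.1.ne rfl) fun h => h.1 rfl⟩

theorem clo_pw (N k b : ℕ) : PathwidthLE (clo N k b) 4 := by
  refine ⟨N + 1, fun i => Finset.univ.filter fun x => x = (0, false) ∨ x.1 = i ∨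
    x.1.val = i.val + 1, fun i => ?_, fun v => ⟨v.1, by simp⟩, fun u v a => ?_, ?_⟩
  · refine (Finset.card_le_card (t := {(0, false), (i, false), (i, true), (i + 1, false),
      (i + 1, true)}) ?_).trans Finset.card_le_five
    rintro ⟨j, c⟩ h
    rcases (Finset.mem_filter.1 h).2 with h | h | h
    · simp [h]
    · obtain rfl : j = i := h
      cases c <;> simp
    · obtain rfl : j = i + 1 := Fin.ext (by
        have := j.2
        rw [Fin.val_add_one_of_lt (Fin.lt_def.2 (by simp at h ⊢; omega))]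
        exact h)
      cases c <;> simp
  · simp only [Finset.mem_filter, Finset.mem_univ, true_and]
    rcases a with ⟨⟨-, h1, h2⟩, -⟩ | ⟨-, ⟨h, -⟩ | ⟨h, -⟩⟩
    · simp only at h1 h2
      rcases lt_trichotomy u.1.val v.1.val with h | h | h
      · exact ⟨u.1, by simp, .inr (.inr (by omega))⟩
      · exact ⟨u.1, by simp, .inr (.inl (Fin.ext h.symm))⟩
      · exact ⟨v.1, .inr (.inr (by omega)), by simp⟩
    · exact ⟨v.1, .inl h, by simp⟩
    · exact ⟨u.1, by simp, .inl h⟩
  · intro v i j l h1 h2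
    simp only [Finset.mem_filter, Finset.mem_univ, true_and, Fin.ext_iff, Fin.le_def] at h1 h2 ⊢
    rintro (h | h3) (h' | h4)
    · exact .inl h
    · exact .inl h
    · exact .inl h'
    · exact .inr (by omega)

theorem clo_mono (N k : ℕ) {b b' : ℕ} (h : b ≤ b') : clo N k b ≤ clo N k b' :=
  fun _ _ a => a.imp_left fun a => ⟨a.1, a.2.1.trans h, a.2.2.trans h⟩

theorem clo_many (N k : ℕ) : N + 1 ≤ (clo N k N).edgeSet.ncard := by
  have i : Function.Injective fun i : Fin (N + 1) => s((i, false), (i, true)) := fun i j e => by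
    simpa using e
  have := ncard_le_ncard (s := range fun i : Fin (N + 1) => s((i, false), (i, true)))
    (t := (clo N k N).edgeSet) (by
      rintro _ ⟨i, rfl⟩
      exact .inl ⟨by simp [strip], Nat.le_of_lt_succ i.2, Nat.le_of_lt_succ i.2⟩)
  rwa [ncard_range_of_injective i, Nat.card_eq_fintype_card, Fintype.card_fin] at this

theorem clo_few (N k : ℕ) (hk : k ≤ N) : (clo N k k).edgeSet.ncard ≤ 5 * (k + 1) + 2 := by
  have : Finite {x : ℕ × Bool | x.1 ≤ k} :=
    ((Set.finite_Iic k).prod (Set.finite_univ (α := Bool))).subset fun x hx => ⟨hx, trivial⟩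
  let f : {x : ℕ × Bool | x.1 ≤ k} → Fin (N + 1) × Bool :=
    fun x => (⟨x.1.1, Nat.lt_succ_of_le (le_trans x.2 hk)⟩, x.1.2)
  let K : Fin (N + 1) := ⟨k, Nat.lt_succ_of_le hk⟩
  refine (ncard_le_ncard (t := Sym2.map f '' (strip.induce {x | x.1 ≤ k}).edgeSet ∪
    {s((0, false), (K, false)), s((0, false), (K, true))}) fun e he => ?_).trans
      ((ncard_union_le _ _).trans (add_le_add ((ncard_image_le (toFinite _)).trans (edges_le k))
        ((ncard_insert_le _ _).trans (by simp))))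
  induction e with
  | h x y =>
    rcases he with ⟨h1, h2, h3⟩ | ⟨-, ⟨rfl, h⟩ | ⟨rfl, h⟩⟩
    · exact .inl ⟨s(⟨(x.1, x.2), h2⟩, ⟨(y.1, y.2), h3⟩), h1, rfl⟩
    · obtain ⟨j, c⟩ := y
      obtain rfl : j = K := Fin.ext h
      cases c <;> simp
    · obtain ⟨j, c⟩ := x
      obtain rfl : j = K := Fin.ext h
      cases c <;> simp

theorem clo_cyc (N k : ℕ) (hk : k + 2 ≤ N) :
    (T (k + 1)).card ≤ (cycles (clo N (k + 2) (k + 2))).ncard := by
  have : Finite {x : ℕ × Bool | x.1 ≤ k + 2} :=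
    ((Set.finite_Iic (k + 2)).prod (Set.finite_univ (α := Bool))).subset fun x hx => ⟨hx, trivial⟩
  let G := strip.induce {x | x.1 ≤ k + 2}
  let s : {x : ℕ × Bool | x.1 ≤ k + 2} := ⟨(k + 2, false), Nat.le_refl _⟩
  let t : {x : ℕ × Bool | x.1 ≤ k + 2} := ⟨(0, false), Nat.zero_le _⟩
  have h0 : (T (k + 1)).card ≤ (paths G s t).ncard := by
    have h1 : Set.InjOn (Walk.edgeSet : G.Walk s t → _) {p | p.IsPath} :=
      fun p hp q hq => path_ext p q hp hq
    have h2 : paths G s t = Walk.edgeSet '' {p : G.Walk s t | p.IsPath} := by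
      ext
      simp [paths, eq_comm]
    have h3 : {p : G.Walk s t | p.IsPath}.Finite := .of_finite_image (Set.toFinite _) h1
    rw [h2, h1.ncard_image, ← Set.ncard_coe_finset]
    refine (Set.ncard_le_ncard (t := (fun p : G.Walk s t => (p.support.map Subtype.val).tail) ''
      {p | p.IsPath}) (fun l hl => ?_) (h3.image _)).trans (Set.ncard_image_le h3)
    obtain ⟨a1, a2, a3, a4⟩ := good (k + 1) l hl
    obtain ⟨p, hp⟩ := ex_walk l _ (a1 false) (a4 _)
    have h4 : ∀ x ∈ p.support, x ∈ {x : ℕ × Bool | x.1 ≤ k + 2} := fun x hx => by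
      rcases List.mem_cons.1 (hp ▸ hx) with rfl | h
      · exact Nat.le_refl _
      · exact (a3 x h).trans (Nat.le_succ _)
    have h5 : (p.induce _ h4).support.map Subtype.val = (k + 2, false) :: l := by
      rw [Walk.support_induce, ← hp]
      exact List.attachWith_map_subtype_val _
    refine ⟨p.induce _ h4, (Walk.isPath_def _).2 (List.Nodup.of_map Subtype.val ?_),
      congrArg List.tail h5⟩
    rw [h5]
    exact List.nodup_cons.2 ⟨fun h => by simpa using a3 _ h, a2⟩
  have hn : ¬ G.Adj t s := by simp [G, s, t, strip]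
  have hne : t ≠ s := by simp [s, t]
  have h1 : (paths G s t).ncard ≤ (cycles (G ⊔ fromEdgeSet {s(t, s)})).ncard := by
    refine ncard_le_ncard_of_injOn (insert s(t, s)) ?_ fun S hS T hT e => ?_
    · rintro _ ⟨p, hp, rfl⟩
      have h2 : (G ⊔ fromEdgeSet {s(t, s)}).Adj t s := .inr (by simpa using hne)
      refine ⟨t, .cons h2 (p.mapLe le_sup_left), (Walk.cons_isCycle_iff _ _).2
        ⟨hp.mapLe _, fun h3 => hn (p.edges_subset_edgeSet (by simpa using h3))⟩, ?_⟩
      ext
      simp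
    · rw [← insert_sdiff_self_of_notMem (a := s(t, s)) fun h => hn (paths_sub S hS h), e,
        insert_sdiff_self_of_notMem fun h => hn (paths_sub T hT h)]
  let f : {x : ℕ × Bool | x.1 ≤ k + 2} → Fin (N + 1) × Bool :=
    fun x => (⟨x.1.1, Nat.lt_succ_of_le (le_trans x.2 hk)⟩, x.1.2)
  have fi : Function.Injective f := fun x y e =>
    Subtype.ext (Prod.ext (congrArg (fun z => z.1.val) e) (congrArg (fun z => z.2) e))
  refine (h0.trans h1).trans (cycles_map ⟨f, fun {x y} a => ?_⟩ fi)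
  rcases a with a | a
  · exact .inl ⟨a, x.2, y.2⟩
  · rw [fromEdgeSet_adj, mem_singleton_iff, Sym2.eq_iff] at a
    refine .inr ⟨fi.ne a.2, ?_⟩
    rcases a.1 with ⟨rfl, rfl⟩ | ⟨rfl, rfl⟩
    · exact .inl ⟨rfl, rfl⟩
    · exact .inr ⟨rfl, rfl⟩

theorem lowerPW {m k : ℕ} (h : 5 * k + 17 ≤ m) : ∃ G : SimpleGraph (Fin (m + 1) × Bool),
    PathwidthLE G 4 ∧ G.edgeSet.ncard = m ∧ (T (k + 1)).card ≤ (cycles G).ncard := by
  have le := clo_mono m (k + 2) (by omega : k + 2 ≤ m)
  obtain ⟨E, h1, h2, h3⟩ := Set.exists_subsuperset_card_eq (n := m) (edgeSet_mono le)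
    ((clo_few m (k + 2) (by omega)).trans (by omega)) ((Nat.le_succ m).trans (clo_many m _))
  have e : (fromEdgeSet E).edgeSet = E := by
    rw [edgeSet_fromEdgeSet, sdiff_eq_left]
    exact Set.disjoint_left.2 fun x hx => not_isDiag_of_mem_edgeSet _ (h2 hx)
  refine ⟨fromEdgeSet E, (clo_pw m (k + 2) m).anti (edgeSet_subset_edgeSet.1 (e.symm ▸ h2)),
    e.symm ▸ h3, (clo_cyc m k (by omega)).trans (cycles_map
      (Hom.ofLE (edgeSet_subset_edgeSet.1 (e.symm ▸ h1))) fun _ _ => id)⟩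

end Pool.Agent.MP_94842c_co.PW
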